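import Pool.Agent.helper74.VN.SpecC
import Pool.Agent.helper63.VQ.VMA

/-!
# Project VN (MP_07c750_an), row NMA: the mass of the rows of the kernels
-/

set_option autoImplicit false

open scoped MatrixGroups ContDiff Topology UpperHalfPlane ComplexConjugate ENNReal
open UpperHalfPlane MeasureTheory Filter Set

namespace Pool.Agent.VN

open Pool.Agent.RS Pool.Agent.VQ

noncomputable section

/-- the window is small -/
theorem NMA_k (k R : ℝ) (hk : 0 < k) (hR : (2 / k) ^ 4 ≤ R) : R ^ (-(1 / 4) : ℝ) ≤ k / 2 := by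
  have h0 : (0 : ℝ) < 2 / k := by positivity
  have h8 : R ^ (-(1 / 4) : ℝ) ≤ ((2 / k) ^ 4) ^ (-(1 / 4) : ℝ) := Real.rpow_le_rpow_of_nonpos (by positivity) hR (by norm_num)
  have h9 : ((2 / k) ^ 4 : ℝ) ^ (-(1 / 4) : ℝ) = k / 2 := by
    rw [← Real.rpow_natCast, ← Real.rpow_mul h0.le]
    have e : (((4 : ℕ) : ℝ) * -(1 / 4)) = -1 := by norm_num
    rw [e, Real.rpow_neg_one, inv_div]
  rwa [h9] at h8

theorem NMA_proof (hNNP : NNP_stmt) (hNQA : NQA_stmt) (hNQS : NQS_stmt) (hNTN : NTN_stmt) (hNUM : NUM_stmt) (hNOX : NOX_stmt) (hNUS : NUS_stmt) (hNUL : NUL_stmt) (hNUB : NUB_stmt) (hVOX : VOX_stmt) (hVDM : VDM_stmt) : NMA_stmt := by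
  intro k hk0
  obtain ⟨-, hX2, hX3, -, hX5, -⟩ := hVOX
  obtain ⟨hX1, hX6⟩ := hNOX
  obtain ⟨C0', -, h0'⟩ := hNUB k hk0
  obtain ⟨C1, hC1, h1⟩ := hNNP k hk0
  obtain ⟨C2, hC2, h2⟩ := hNTN k hk0
  obtain ⟨C3, hC3, h3⟩ := hNUM k hk0
  obtain ⟨C4, hC4, h4⟩ := hNUS k hk0
  obtain ⟨C5, hC5, h5⟩ := hNUL k hk0
  obtain ⟨C, hCe⟩ : ∃ C, C = C1 + C2 + C3 + 2 * C4 + 2 * C5 + 8 := ⟨_, rfl⟩
  refine ⟨C, by linarith, ?_⟩
  intro ch B A hch hA
  have hC8 : 8 ≤ C := by linarith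
  have e0 : 0 < A.e3 := hA.e3
  have m1 : (1 : ℝ) ≤ A.m := by exact_mod_cast hA.m
  have C0 : 0 < C := by linarith
  have z0 : 0 < A.z := lt_of_lt_of_le (mul_pos C0 e0) hA.z
  have z10 : 0 < A.z1 := lt_of_lt_of_le (mul_pos C0 z0) hA.z1
  have z20 : 0 < A.z2 := lt_of_lt_of_le (mul_pos C0 z10) hA.z2
  have hz1 : A.z ≤ A.z1 := by nlinarith [hA.z1]
  have hz2 : A.z1 ≤ A.z2 := by nlinarith [hA.z2]
  have hz3 : A.z2 ≤ A.m * A.z2 := by nlinarith
  have hmz : A.m * A.z2 ≤ 1 / 8 := by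
    have h8 : 8 * (A.m * A.z2) ≤ C * (A.m * A.z2) := mul_le_mul_of_nonneg_right hC8 (by positivity)
    have := hA.up
    linarith
  have hz18 : A.z1 ≤ 1 / 8 := by linarith
  have hz8 : A.z ≤ 1 / 8 := by linarith
  have hRg : ∀ C', 1 ≤ C' → C' ≤ C → Rg C' A.e3 A.z A.z1 := by
    intro C' h h'
    refine ⟨e0.le, z0, hz1, ?_, ?_⟩
    · exact ((mul_le_mul_of_nonneg_right h' e0.le).trans hA.z).trans hz1
    · have h6 := (mul_le_mul_of_nonneg_right h' z10.le).trans hA.z2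
      linarith
  obtain ⟨R1, hR1, g1⟩ := h1 ch A.e3 A.z A.z1 B hch (hRg C1 hC1 (by linarith))
  obtain ⟨R2, hR2, g2⟩ := h2 ch B A hch (VMA_adm hA (by linarith) (by linarith))
  obtain ⟨R3, hR3, g3⟩ := h3 ch B A hch (VMA_adm hA (by linarith) (by linarith))
  obtain ⟨R4, hR4, g4⟩ := h4 ch B A hch (VMA_adm hA (by linarith) (by linarith))
  obtain ⟨R5, hR5, g5⟩ := h5 ch A.e3 A.z A.z1 1 B hch (hRg C5 hC5 (by linarith))
  obtain ⟨R6, hR6, g6⟩ := hNQA ch A.z k hch hk0 z0 hz8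
  obtain ⟨R7, hR7, g7⟩ := hNQS ch A.z k hch hk0 z0 hz8
  have h742 : (0 : ℝ) < 7 ^ 42 := by positivity
  have hk4 : (0 : ℝ) < (2 / k) ^ 4 := by positivity
  refine ⟨R1 + R2 + R3 + R4 + R5 + R6 + R7 + 65536 + 7 ^ 42 + (2 / k) ^ 4, by linarith, ?_⟩
  intro R Γ D hR hD n p hn hnm
  have hRb : (65536 : ℝ) ≤ R := by linarith
  have hRpos : 0 < R := by linarith
  have hR1' : 1 ≤ R := by linarith
  have hD' : OKN ⊥ k B D := hX1 Γ k B D hD
  have hPU : PV ⊥ k D.U := (h0' ⊥ B D.U hD'.pot).1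
  obtain ⟨f2, -⟩ := g2 R ⊥ univ D (by linarith) hX2 hD'
  obtain ⟨f31, f32, -, f34, f35, f36, f37⟩ := g3 R ⊥ univ D (by linarith) hX2 hD'
  obtain ⟨f4, -⟩ := g4 R Γ D (by linarith) hD
  obtain ⟨f61, -⟩ := g6 R ⊥ univ D.U (by linarith) hX2 hPU
  obtain ⟨-, -, -, f7, -, -⟩ := g7 R ⊥ univ D.U (by linarith) hX2 hPU
  have hlog : 0 ≤ Real.log R := Real.log_nonneg hR1'
  have hsg0 : 0 ≤ A.sg R := mul_nonneg e0.le hlog
  have hR16 : R ^ (-(1 / 4) : ℝ) ≤ 1 / 16 := by
    have h8 : R ^ (-(1 / 4) : ℝ) ≤ (65536 : ℝ) ^ (-(1 / 4) : ℝ) := Real.rpow_le_rpow_of_nonpos (by norm_num) hRb (by norm_num)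
    have h9 : (65536 : ℝ) ^ (-(1 / 4) : ℝ) = 1 / 16 := by
      have e : (65536 : ℝ) = (16 : ℝ) ^ (4 : ℝ) := by norm_num
      rw [e, ← Real.rpow_mul (by norm_num)]
      norm_num
    rwa [h9] at h8
  have hpr : ∀ p q, ‖pr D ch A R p q‖ ≤ R ^ (2 + C5 * A.z1) := by
    intro p q
    unfold VQ.pr
    split_ifs with h
    · exact (g5 R 0 Γ D p q (by linarith) hD le_rfl (mul_nonneg e0.le hlog) ⟨Set.mem_univ _, h.1⟩ ⟨Set.mem_univ _, h.2.1⟩).2.2.2.1
    · rw [norm_zero]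
      positivity
  have hC5 : C5 * A.z1 ≤ 1 / 2 := by
    have h8 : (2 * C5) * A.z1 ≤ C * A.z1 := mul_le_mul_of_nonneg_right (by linarith) z10.le
    have := hA.z2
    linarith
  have hC4 : C4 * (A.m * A.z2) ≤ 1 / 2 := by
    have h8 : (2 * C4) * (A.m * A.z2) ≤ C * (A.m * A.z2) := mul_le_mul_of_nonneg_right (by linarith) (by positivity)
    have := hA.up
    linarith
  constructor
  · obtain ⟨k', rfl⟩ : ∃ k', n = k' + 1 := ⟨n - 1, by omega⟩
    by_cases hp : p ∈ GW 2 R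
    swap
    · have h0 : ∀ q, usm D ch A R (k' + 1) p q = 0 := by
        intro q
        by_contra hne
        exact hp (f35 _ _ _ hne).1
      have h00 : ∫⁻ q, ‖usm D ch A R (k' + 1) p q‖ₑ ^ 2 ∂mP = 0 := by
        have e : ∀ q, ‖usm D ch A R (k' + 1) p q‖ₑ ^ 2 = 0 := by
          intro q
          rw [h0 q]
          simp
        rw [lintegral_congr e, lintegral_zero]
      rw [h00]
      exact bot_le
    have hp8 : |p.2| ≤ k := by
      have h8 := hp.2
      have hRk : R ^ (-(1 / 4) : ℝ) ≤ k / 2 := NMA_k k R hk0 (by linarith)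
      rw [abs_le]
      exact ⟨by linarith [h8.1], by linarith [h8.2]⟩
    have hR38 : R ^ (-(1 / 2) + A.z1) ≤ 1 / 4 := by
      have h8 : R ^ (-(1 / 2) + A.z1) ≤ R ^ (-(1 / 4) : ℝ) := Real.rpow_le_rpow_of_exponent_le hR1' (by linarith)
      linarith
    have hFH : FH ⊥ univ (psi D ch A.z A.z1 R (A.sg R) p) := (hX6 D ch A.z A.z1 R (A.sg R) k Γ B p hch z10 hz18 (by linarith) hD hp8 hR38).1
    have hrow : ∫⁻ x, ‖us D ch A R p x‖ₑ ^ 2 ∂mP ≤ ENNReal.ofReal ((1 + R ^ (-(1 / 5) : ℝ)) * (R ^ 2 / (2 * Real.pi))) := by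
      apply VMA_row
      rw [VMA_fp hVDM hX2 hX5 R hRpos hR16 _ ((f7 _ hFH).2)]
      refine ENNReal.ofReal_le_ofReal ?_
      exact ((f61 _ hFH).1).trans (g1 R (A.sg R) Γ D p (by linarith) hD hp8 hsg0 le_rfl).1
    obtain ⟨v, hv⟩ : ∃ v : SL(2, ℝ) × ℝ → ℂ, v = fun q => conj (usm D ch A R (k' + 1) p q) := ⟨_, rfl⟩
    have hK := f32 (k' + 1)
    have hnv : ∀ q, ‖v q‖ = ‖usm D ch A R (k' + 1) p q‖ := by
      intro q
      rw [hv]
      exact RCLike.norm_conj _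
    have hv0 : ∀ q, v q ≠ 0 → usm D ch A R (k' + 1) p q ≠ 0 := by
      intro q hq h0
      apply hq
      rw [hv]
      change conj (usm D ch A R (k' + 1) p q) = 0
      rw [h0, map_zero]
    have hvm : Measurable v := by
      rw [hv]
      exact Complex.continuous_conj.measurable.comp (hK.meas.comp measurable_prodMk_left)
    have hvFP : FP ⊥ univ v := by
      refine hX3 v hvm ?_ ?_
      · obtain ⟨b, hb⟩ := hK.bdd
        exact ⟨b, fun q => by rw [hnv]; exact hb p q⟩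
      · obtain ⟨T, hT⟩ := hK.range
        refine ⟨T + dist (p.1 • I : ℍ) I, fun q hq => ?_⟩
        have h8 := hT p q (hv0 q hq)
        unfold dW at h8
        have h9 := dist_triangle (q.1 • I : ℍ) (p.1 • I) I
        rw [dist_comm (q.1 • I : ℍ) (p.1 • I)] at h9
        linarith
    have hvGW : ∀ q, q ∉ GW 2 R → v q = 0 := by
      intro q hq
      by_contra hne
      exact hq (f35 _ _ _ (hv0 q hne)).2
    obtain ⟨N, hN⟩ : ∃ N, N = nP univ 2 R v := ⟨_, rfl⟩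
    have hN0 : 0 ≤ N := by
      rw [hN]
      exact integral_nonneg fun q => by positivity
    have hN1 : ∫⁻ q, ‖usm D ch A R (k' + 1) p q‖ₑ ^ 2 ∂mP = ENNReal.ofReal N := by
      rw [hN, ← VMA_fp hVDM hX2 hX5 R hRpos hR16 v hvFP, ← lintegral_indicator (VMA_GW R)]
      refine lintegral_congr fun q => ?_
      by_cases hq : q ∈ GW 2 R
      · rw [Set.indicator_of_mem hq, ← ofReal_norm, ← ofReal_norm, hnv]
      · rw [Set.indicator_of_notMem hq]
        have h8 := hvGW q hq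
        have h9 : ‖usm D ch A R (k' + 1) p q‖ = 0 := by rw [← hnv, h8, norm_zero]
        rw [← ofReal_norm, h9]
        simp
    have hN2 : Op (usm D ch A R (k' + 1)) v p = (N : ℂ) := by
      have e1 : N = ∫ q, ‖v q‖ ^ 2 ∂mP := by
        rw [hN]
        unfold nP
        rw [hX5, ← integral_indicator (VMA_GW R)]
        refine integral_congr_ae (Eventually.of_forall fun q => ?_)
        by_cases hq : q ∈ GW 2 R
        · exact Set.indicator_of_mem hq _
        · change (GW 2 R).indicator (fun q => ‖v q‖ ^ 2) q = ‖v q‖ ^ 2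
          rw [Set.indicator_of_notMem hq, hvGW q hq]
          simp
      rw [e1, ← integral_complex_ofReal]
      refine integral_congr_ae (Eventually.of_forall fun q => ?_)
      change usm D ch A R (k' + 1) p q * v q = ((‖v q‖ ^ 2 : ℝ) : ℂ)
      rw [hnv, hv]
      change usm D ch A R (k' + 1) p q * conj (usm D ch A R (k' + 1) p q) = _
      rw [Complex.mul_conj']
      push_cast
      rfl
    have hN3 := f37 k' v p hvFP
    have hw : FP ⊥ univ (Op (usm D ch A R k') v) := f36 _ _ (f32 k') (f35 k') hvFP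
    have hw2 := f2 k' v (by omega) hvFP
    have hw0 : 0 ≤ nP univ 2 R (Op (usm D ch A R k') v) := integral_nonneg fun q => by positivity
    have hle : N ≤ Real.sqrt ((1 + R ^ (-(1 / 5) : ℝ)) * (R ^ 2 / (2 * Real.pi))) * Real.sqrt (nP univ 2 R (Op (usm D ch A R k') v)) := by
      have h8 : Op (us D ch A R) (Op (usm D ch A R k') v) p = ∫ x, us D ch A R p x * (GW 2 R).indicator (Op (usm D ch A R k') v) x ∂mP := by
        refine integral_congr_ae (Eventually.of_forall fun x => ?_)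
        by_cases hx : x ∈ GW 2 R
        · change _ = us D ch A R p x * (GW 2 R).indicator (Op (usm D ch A R k') v) x
          rw [Set.indicator_of_mem hx]
        · have h9 : us D ch A R p x = 0 := by
            by_contra hne
            exact hx (f34 _ _ hne).2
          change us D ch A R p x * _ = us D ch A R p x * _
          rw [h9, zero_mul, zero_mul]
      have h10 : ‖(N : ℂ)‖ = N := by rw [Complex.norm_real, Real.norm_eq_abs, abs_of_nonneg hN0]
      rw [← h10, ← hN2, hN3, h8]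
      refine VMA_cs mP _ _ (f31.meas.comp measurable_prodMk_left) (hw.meas.indicator (VMA_GW R)) _ _ (by positivity) hw0 hrow ?_
      rw [← VMA_fp hVDM hX2 hX5 R hRpos hR16 _ hw, ← lintegral_indicator (VMA_GW R)]
      refine lintegral_mono fun x => ?_
      by_cases hx : x ∈ GW 2 R
      · rw [Set.indicator_of_mem hx, Set.indicator_of_mem hx]
      · rw [Set.indicator_of_notMem hx, Set.indicator_of_notMem hx]
        simp
    rw [hN1]
    refine ENNReal.ofReal_le_ofReal ?_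
    have hfin := VMA_sq N _ (1 + R ^ (-(1 / 6) : ℝ)) _ hN0 (by positivity) (by positivity) (by rw [hN]; exact hw2) hle
    refine hfin.trans ?_
    have hnum := VMA_num R (by linarith)
    have e : (1 + R ^ (-(1 / 5) : ℝ)) * (R ^ 2 / (2 * Real.pi)) * (1 + R ^ (-(1 / 6) : ℝ)) ^ 2 = ((1 + R ^ (-(1 / 5) : ℝ)) * (1 + R ^ (-(1 / 6) : ℝ)) ^ 2) * (R ^ 2 / (2 * Real.pi)) := by ring
    rw [e]
    exact mul_le_mul_of_nonneg_right hnum (by positivity)
  · intro q
    refine (VMA_sup D ch A R (R ^ (C4 * A.z2)) (R ^ (2 + C5 * A.z1)) (by positivity) (by positivity) hpr f4 n p q).trans ?_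
    rw [← Real.rpow_natCast, ← Real.rpow_mul hRpos.le, ← Real.rpow_add hRpos]
    have h3 : R ^ 3 = R ^ (3 : ℝ) := by norm_cast
    rw [h3]
    refine Real.rpow_le_rpow_of_exponent_le hR1' ?_
    have hk' : (n : ℝ) ≤ A.m := by exact_mod_cast hnm
    have h8 : C4 * A.z2 * n ≤ C4 * (A.m * A.z2) := by
      have h9 : C4 * A.z2 * n ≤ C4 * A.z2 * A.m := mul_le_mul_of_nonneg_left hk' (by positivity)
      linarith
    linarith

end

end Pool.Agent.VN
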