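import Pool.Agent.helper55.VN.SpecD
import Pool.Agent.helper38.VQ.EDC

/-!
# Project VN (MP_07c750_an), row QDC: the commutator of the small step with a slowly varying function
-/

set_option autoImplicit false

open scoped MatrixGroups ContDiff Topology UpperHalfPlane ComplexConjugate ENNReal
open UpperHalfPlane MeasureTheory Filter Set

namespace Pool.Agent.VN

open Pool.Agent.RS Pool.Agent.VQ
open Pool.Agent.RPQ (CEig mean VV IsOp)

noncomputable section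

theorem QDC_proof (hNUS : NUS_stmt) (hNUM : NUM_stmt) (hVSH : VSH_stmt) (hVDM : VDM_stmt) : QDC_stmt := by
  intro k hk0
  obtain ⟨C1, hC1, HS⟩ := hNUS k hk0
  obtain ⟨C2, hC2, HM⟩ := hNUM k hk0
  refine ⟨max (200 * C1) C2, hC2.trans (le_max_right _ _), fun ch B A hch hA => ?_⟩
  have hA1 : Adm C1 A := Adm_mono hA hC1 ((by linarith : C1 ≤ 200 * C1).trans (le_max_left _ _))
  have hA2 : Adm C2 A := Adm_mono hA hC2 (le_max_right _ _)
  obtain ⟨R1, hR1, HS⟩ := HS ch B A hch hA1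
  obtain ⟨R2, hR2, HM⟩ := HM ch B A hch hA2
  refine ⟨max R1 R2, hR1.trans (le_max_left _ _), ?_⟩
  intro R w Γ F D H v hR hD hok hw hH hv
  obtain ⟨hs1, hs2, -, -⟩ := HS R Γ D ((le_max_left _ _).trans hR) hok
  obtain ⟨hKZ, -, -, -, -, -, -⟩ := HM R Γ F D ((le_max_right _ _).trans hR) hD hok
  have hR1' : (1 : ℝ) ≤ R := hR1.trans ((le_max_left _ _).trans hR)
  have hsm := Adm_small hA (hC2.trans (le_max_right _ _))
  have hz2 : 0 < A.z2 := hsm.1.trans_le (hsm.2.1.trans hsm.2.2.1)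
  have hCz : 200 * C1 * A.z2 ≤ 1 := (mul_le_mul_of_nonneg_right (le_max_left _ _) hz2.le).trans hsm.2.2.2.2.1
  obtain ⟨hcG, hF, huni, -, hWW⟩ := hVDM Γ F hD
  obtain ⟨hsf, hmp, -, hres, hdG, -⟩ := hWW (Wi 2 R) measurableSet_Icc
  set W : Measure (SL(2, ℝ) × ℝ) := mP.restrict (GW 2 R) with hWd
  have hsf' : SigmaFinite W := hsf
  have hPWm : MeasurableSet (PW F 2 R) := hdG.prod measurableSet_Icc
  have hPG : PW F 2 R ⊆ GW 2 R := fun p hp => ⟨mem_univ _, hp.2⟩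
  have hresW : W.restrict (dG F ×ˢ univ) = mP.restrict (PW F 2 R) := hres
  set a : ℝ≥0∞ := ENNReal.ofReal (R ^ (C1 * A.z2)) with ha
  -- the Schur test
  have hWle : W ≤ mP := Measure.restrict_le_self
  have hK1 : ∀ x, ∫⁻ y, ‖us D ch A R x y‖ₑ ∂W ≤ a := fun x => (lintegral_mono' hWle le_rfl).trans (hs1 x)
  have hK2 : ∀ y, ∫⁻ x, ‖us D ch A R x y‖ₑ ∂W ≤ a := fun y => (lintegral_mono' hWle le_rfl).trans (hs2 y)
  have hact : ∀ x : SL(2, ℝ) × ℝ, ∃! γ : Γ, (((γ : SL(2, ℝ)) * x.1, x.2) : SL(2, ℝ) × ℝ) ∈ (dG F ×ˢ univ : Set (SL(2, ℝ) × ℝ)) := by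
    intro x
    obtain ⟨γ, h1, h2⟩ := huni (x.1 • I)
    refine ⟨γ, ⟨?_, mem_univ _⟩, fun γ' h' => h2 γ' ?_⟩
    · show (((γ : SL(2, ℝ)) * x.1) • I : ℍ) ∈ F
      rw [mul_smul]
      exact h1
    · have h3 : (((γ' : SL(2, ℝ)) * x.1) • I : ℍ) ∈ F := h'.1
      rw [mul_smul] at h3
      exact h3
  have hSch : ∫⁻ x in PW F 2 R, (∫⁻ y, ‖us D ch A R x y‖ₑ * ‖v y‖ₑ ∂W) ^ 2 ∂mP ≤
      a * a * ∫⁻ y in PW F 2 R, ‖v y‖ₑ ^ 2 ∂mP := by
    rw [← hresW]
    let _ := EDC_act Γ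
    refine (hVSH Γ (SL(2, ℝ) × ℝ) (SL(2, ℝ) × ℝ) W W (dG F ×ˢ univ) (dG F ×ˢ univ) (fun γ => hmp γ) (fun γ => hmp γ)
      hact hact (hdG.prod MeasurableSet.univ) (hdG.prod MeasurableSet.univ)
      (fun x y => ‖us D ch A R x y‖ₑ) ?_ ?_).2 a a (fun y => ‖v y‖ₑ) hv.meas.enorm ?_ hK1 hK2
    · exact hKZ.meas.enorm
    · intro γ x y
      have h1 := hKZ.inv γ x y
      exact congrArg (fun z : ℂ => ‖z‖ₑ) h1
    · intro γ y
      show ‖v ((γ : SL(2, ℝ)) * y.1, y.2)‖ₑ = ‖v y‖ₑ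
      rw [hv.inv]
  -- the pointwise bound
  obtain ⟨b, hb⟩ := hKZ.bdd
  obtain ⟨T, hT⟩ := hKZ.range
  obtain ⟨c, hc⟩ := hv.bdd
  have hpt : ∀ p ∈ PW F 2 R, ‖Op (us D ch A R) (fun q => H q * v q) p - H (D.ph (A.sg R) p) * Op (us D ch A R) v p‖ₑ ≤
      ENNReal.ofReal w * ∫⁻ y, ‖us D ch A R p y‖ₑ * ‖v y‖ₑ ∂W := by
    intro p hp
    have hpG := hPG hp
    have hpG' : D.ph (A.sg R) p ∈ GW 2 R := ⟨mem_univ _, hp.2⟩
    have hKm : Measurable (us D ch A R p) := hKZ.meas.comp measurable_prodMk_left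
    have i1 : Integrable (fun q => us D ch A R p q * (H q * v q)) mP := by
      refine EDC_int (R := R) (b := b) (c := c) (T := T) (z := (p.1 • I : ℍ)) hKm (hH.meas.mul hv.meas) (hb p) (fun q => ?_) ?_
      · rw [norm_mul]
        have a1 := hH.bd q
        have a2 := hc q
        calc ‖H q‖ * ‖v q‖ ≤ 1 * ‖v q‖ := mul_le_mul_of_nonneg_right a1 (norm_nonneg _)
          _ ≤ c := by rw [one_mul]; exact a2
      · intro q hq
        exact ⟨(EDC_us hq).2.1, hT p q hq⟩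
    have i2 : Integrable (fun q => us D ch A R p q * v q) mP := by
      refine EDC_int (R := R) (b := b) (c := c) (T := T) (z := (p.1 • I : ℍ)) hKm hv.meas (hb p) hc ?_
      intro q hq
      exact ⟨(EDC_us hq).2.1, hT p q hq⟩
    have e1 : Op (us D ch A R) (fun q => H q * v q) p - H (D.ph (A.sg R) p) * Op (us D ch A R) v p =
        ∫ q, us D ch A R p q * (H q * v q) - H (D.ph (A.sg R) p) * (us D ch A R p q * v q) ∂mP := by
      rw [integral_sub i1 (i2.const_mul _), integral_const_mul]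
      rfl
    rw [e1]
    have e2 : ∀ q, q ∉ GW 2 R → us D ch A R p q = 0 := by
      intro q hq
      by_contra h0
      exact hq (EDC_us h0).2.1
    calc ‖∫ q, us D ch A R p q * (H q * v q) - H (D.ph (A.sg R) p) * (us D ch A R p q * v q) ∂mP‖ₑ
        ≤ ∫⁻ q, ‖us D ch A R p q * (H q * v q) - H (D.ph (A.sg R) p) * (us D ch A R p q * v q)‖ₑ ∂mP :=
          enorm_integral_le_lintegral_enorm _
      _ ≤ ∫⁻ q, (GW 2 R).indicator (fun q => ENNReal.ofReal w * (‖us D ch A R p q‖ₑ * ‖v q‖ₑ)) q ∂mP := by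
          refine lintegral_mono fun q => ?_
          by_cases hq : q ∈ GW 2 R
          · rw [indicator_of_mem hq]
            by_cases h0 : us D ch A R p q = 0
            · rw [h0]
              simp
            · have h1 := hH.var _ _ hpG' hq (EDC_us h0).2.2
              have h2 : us D ch A R p q * (H q * v q) - H (D.ph (A.sg R) p) * (us D ch A R p q * v q) =
                  -((H (D.ph (A.sg R) p) - H q) * (us D ch A R p q * v q)) := by ring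
              rw [h2, enorm_neg, enorm_mul, enorm_mul]
              gcongr
              rw [← ofReal_norm]
              exact ENNReal.ofReal_le_ofReal h1
          · rw [indicator_of_notMem hq, e2 q hq]
            simp
      _ = ∫⁻ q, ENNReal.ofReal w * (‖us D ch A R p q‖ₑ * ‖v q‖ₑ) ∂W := by
          rw [lintegral_indicator (EDC_GWm R)]
      _ = ENNReal.ofReal w * ∫⁻ y, ‖us D ch A R p y‖ₑ * ‖v y‖ₑ ∂W := by
          rw [lintegral_const_mul' _ _ ENNReal.ofReal_ne_top]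
  have htot : ∫⁻ p in PW F 2 R, ‖Op (us D ch A R) (fun q => H q * v q) p - H (D.ph (A.sg R) p) * Op (us D ch A R) v p‖ₑ ^ 2 ∂mP ≤
      ENNReal.ofReal (w ^ 2 * R ^ (1 / 100 : ℝ)) * ∫⁻ y in PW F 2 R, ‖v y‖ₑ ^ 2 ∂mP := by
    calc ∫⁻ p in PW F 2 R, ‖Op (us D ch A R) (fun q => H q * v q) p - H (D.ph (A.sg R) p) * Op (us D ch A R) v p‖ₑ ^ 2 ∂mP
        ≤ ∫⁻ p in PW F 2 R, ENNReal.ofReal w ^ 2 * (∫⁻ y, ‖us D ch A R p y‖ₑ * ‖v y‖ₑ ∂W) ^ 2 ∂mP := by
          refine setLIntegral_mono' hPWm fun p hp => ?_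
          rw [← mul_pow]
          have := hpt p hp
          gcongr
      _ = ENNReal.ofReal w ^ 2 * ∫⁻ p in PW F 2 R, (∫⁻ y, ‖us D ch A R p y‖ₑ * ‖v y‖ₑ ∂W) ^ 2 ∂mP := by
          rw [lintegral_const_mul' _ _ (ENNReal.pow_ne_top ENNReal.ofReal_ne_top)]
      _ ≤ ENNReal.ofReal w ^ 2 * (a * a * ∫⁻ y in PW F 2 R, ‖v y‖ₑ ^ 2 ∂mP) := by gcongr
      _ = ENNReal.ofReal w ^ 2 * (a * a) * ∫⁻ y in PW F 2 R, ‖v y‖ₑ ^ 2 ∂mP := by ring
      _ ≤ ENNReal.ofReal (w ^ 2 * R ^ (1 / 100 : ℝ)) * ∫⁻ y in PW F 2 R, ‖v y‖ₑ ^ 2 ∂mP := by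
          gcongr
          rw [ha, ← ENNReal.ofReal_mul (by positivity), ← ENNReal.ofReal_pow hw, ← ENNReal.ofReal_mul (by positivity)]
          refine ENNReal.ofReal_le_ofReal (mul_le_mul_of_nonneg_left ?_ (sq_nonneg w))
          rw [← Real.rpow_add (by linarith)]
          refine Real.rpow_le_rpow_of_exponent_le hR1' ?_
          nlinarith
  have hfin := EDC_fin hF R hv
  refine (EDC_nP_le _).trans ?_
  rw [EDC_nP hv.meas, ← ENNReal.toReal_ofReal (by positivity : 0 ≤ w ^ 2 * R ^ (1 / 100 : ℝ)), ← ENNReal.toReal_mul]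
  exact ENNReal.toReal_mono (ENNReal.mul_ne_top ENNReal.ofReal_ne_top hfin) htot

end

end Pool.Agent.VN
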